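import Pool.Agent.H49.G.R_seed8.Y957.VK.Triv
import Pool.Agent.H49.G.R_seed8.Y331.VK.Lin
import Pool.Agent.H49.G.R_seed8.Y235.VK.Hol
import Pool.Agent.H49.G.R_seed8.Y950.VK.Cnt
import Pool.Agent.H49.G.R_seed8.Y911.VK.Cond
import Pool.Agent.H49.G.R_seed8.Y901.VK.Vmvt
import Pool.Agent.H49.G.R_seed8.Y309.VK.DA
import Pool.Agent.H49.G.R_seed8.Y93.VK.DB
import Pool.Agent.H49.G.R_seed8.Y331.VK.WB
import Pool.Agent.H49.G.R_seed8.Y125.VK.Shift
import Pool.Agent.H49.G.R_seed8.Y288.VK.Tw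
import Pool.Agent.H49.G.R_seed8.Y70.VK.Tn
import Pool.Agent.H49.G.R_seed8.Y824.VK.Zs
import Pool.Agent.H49.G.R_seed8.Y306.VK.Zeta
import Pool.Agent.H49.G.R_seed8.Y333.VK.Zf
import Pool.Agent.H49.G.R_seed8.Y569.VK.Inv
import Pool.Agent.H49.G.R_seed8.Y25.VK.Mob

/-!
Project VK: the unconditional theorems of the first part.
-/

set_option autoImplicit false

namespace Pool.Agent.Y957.VK

theorem cnt_all : S_CNT := Pool.Agent.Y950.VK.cnt Pool.Agent.Y331.VK.lin

theorem rec_all : S_REC := rec_of Pool.Agent.Y235.VK.hol cnt_all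

/-- Vinogradov's mean value theorem, crude constants -/
theorem vmvt_all : S_VMVT := Pool.Agent.Y901.VK.vmvt rec_all Pool.Agent.Y911.VK.cond

theorem dbl_all : S_DBL := dbl_of Pool.Agent.Y309.VK.da Pool.Agent.Y93.VK.db

theorem tn_all : S_TN := Pool.Agent.Y70.VK.tn vmvt_all dbl_all (Pool.Agent.Y288.VK.tw Pool.Agent.Y331.VK.wb)

/-- the bound for zeta sums -/
theorem zs_all : S_ZS := Pool.Agent.Y824.VK.zs Pool.Agent.Y125.VK.shift tn_all

theorem zeta_all : S_ZETA := Pool.Agent.Y306.VK.zeta_up zs_all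

/-- the zero free region -/
theorem zf_all : S_ZF := Pool.Agent.Y333.VK.zf zeta_all

theorem inv_all : S_INV := Pool.Agent.Y569.VK.inv zf_all

/-- twisted sums of the Moebius function -/
theorem mob_all : S_MOB := Pool.Agent.Y25.VK.mob inv_all

end Pool.Agent.Y957.VK
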