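import Pool.Agent.H49.G.R_seed8.Y957.VK.Stm2
import Pool.Agent.H49.G.R_seed8.Y957.VK.Fin1

/-!
Project VK: the Moebius function satisfies the hypothesis `Neg`.
-/

set_option autoImplicit false

namespace Pool.Agent.Y957.VK

open Finset MeasureTheory Filter Topology
open Pool.Agent.H376R2.MR (er)

theorem cpow_er (n : ℕ) (hn : n ≠ 0) (τ : ℝ) :
    (n : ℂ) ^ (-((-τ : ℝ) : ℂ) * Complex.I) = er τ (Real.log n) := by
  have h0 : (n : ℂ) ≠ 0 := by exact_mod_cast hn
  rw [Complex.cpow_def_of_ne_zero h0, er, ← Complex.natCast_log]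
  congr 1
  push_cast
  ring

/-- the Moebius function is negligible -/
theorem neg_mu : Neg (fun n => ((ArithmeticFunction.moebius n : ℤ) : ℂ)) := by
  intro A K
  obtain ⟨C, hC⟩ := mob_all A K
  refine ⟨C, fun N τ hN hτ => ?_⟩
  have h := hC N (-τ) hN (by rwa [abs_neg])
  refine le_trans (le_of_eq ?_) h
  congr 1
  refine Finset.sum_congr rfl fun n hn => ?_
  rw [cpow_er n (by have := (Finset.mem_Icc.1 hn).1; omega) τ]

theorem mu_le (n : ℕ) : ‖((ArithmeticFunction.moebius n : ℤ) : ℂ)‖ ≤ 1 := by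
  rw [Complex.norm_intCast]
  exact_mod_cast ArithmeticFunction.abs_moebius_le_one

end Pool.Agent.Y957.VK
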